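import Pool.Agent.R857.OC.Stm2

/-! Assembly of piece A from A1 and A2. -/

set_option autoImplicit false

namespace Pool.Agent.R857.OC.A

open Pool.Agent.R857.OC

theorem main (hA1 : S_A1) (hA2 : S_A2) : S_A := by
  classical
  rintro ⟨G, W, _, _, _, _, _, l, y, hG, hW, h27, hst, hno⟩
  haveI : Fintype G := Fintype.ofFinite G
  obtain ⟨φ, ρ, hirr, hchar⟩ := hA1 G W l hst
  obtain ⟨ψ, hψ9, hψ⟩ := hA2 G W l y hst hno
  haveI : Fintype W := Fintype.ofFinite W
  haveI : Finite (AddChar W ℂ) := by infer_instance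
  have hcW : Nat.card (AddChar W ℂ) = Nat.card W := by
    rw [Nat.card_eq_fintype_card, Nat.card_eq_fintype_card]
    exact AddChar.card_eq
  have hfin : Finite (AddChar W ℂ ⋊[φ] G) := Finite.of_equiv _ SemidirectProduct.equivProd.symm
  have hcP : Nat.card (AddChar W ℂ ⋊[φ] G) = 9 * Nat.card G ^ 2 := by
    rw [Nat.card_congr SemidirectProduct.equivProd, Nat.card_prod, hcW, hW]
    ring
  obtain ⟨m, hm⟩ := (IsPGroup.iff_card).1 hG
  have hrk : Module.finrank ℂ (G → ℂ) = Nat.card G := by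
    rw [Module.finrank_fintype_fun_eq_card, Nat.card_eq_fintype_card]
  have hGpos : 0 < Nat.card G := Nat.card_pos
  refine ⟨AddChar W ℂ ⋊[φ] G, inferInstance, hfin, G → ℂ, inferInstance, inferInstance,
    inferInstance, ρ, SemidirectProduct.inl ψ, ?_, hirr, ?_, ?_, ?_⟩
  · refine IsPGroup.of_card (n := 2 + m * 2) ?_
    rw [hcP, hm]; ring
  · rw [hchar]; exact hψ
  · rw [hrk, hcP]; exact Dvd.intro_left 9 rfl
  · rw [hrk, hcP, Nat.mul_div_cancel _ (pow_pos hGpos 2)]
    have hord : orderOf ψ = 3 ^ 3 := by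
      haveI : Fact (Nat.Prime 3) := ⟨Nat.prime_three⟩
      refine orderOf_eq_prime_pow (p := 3) (n := 2) ?_ ?_
      · simpa using hψ9
      · ext w
        rw [AddChar.pow_apply, ← AddChar.map_nsmul_eq_pow]
        norm_num [h27 w]
    rw [orderOf_injective (SemidirectProduct.inl : AddChar W ℂ →* AddChar W ℂ ⋊[φ] G)
      SemidirectProduct.inl_injective, hord]
    norm_num

end Pool.Agent.R857.OC.A
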