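import Pool.Agent.R857.OC.Stm2

/-! Piece A1: the induced representation of `dual(W) ⋊ G`. -/

set_option autoImplicit false

namespace Pool.Agent.R857.OC.A1

variable {G W : Type} [Group G] [AddCommGroup W] [DistribMulAction G W]

/-- the action of `G` on the dual of `W` -/
noncomputable def act : G →* MulAut (AddChar W ℂ) where
  toFun g :=
    { toFun := fun ψ => ψ.compAddMonoidHom (DistribSMul.toAddMonoidHom W g⁻¹)
      invFun := fun ψ => ψ.compAddMonoidHom (DistribSMul.toAddMonoidHom W g)
      left_inv := fun ψ => by
        ext w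
        simp
      right_inv := fun ψ => by
        ext w
        simp
      map_mul' := fun ψ ψ' => rfl }
  map_one' := by
    ext ψ w
    simp
  map_mul' g h := by
    ext ψ w
    simp [mul_smul]

theorem act_apply (g : G) (ψ : AddChar W ℂ) (w : W) : act g ψ w = ψ (g⁻¹ • w) := rfl

/-- the induced representation -/
noncomputable def rep (l : W) :
    Representation ℂ (AddChar W ℂ ⋊[(act : G →* MulAut (AddChar W ℂ))] G) (G → ℂ) where
  toFun x :=
    { toFun := fun F h => x.left (h • l) * F (x.right⁻¹ * h)
      map_add' := fun F F' => by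
        funext h
        simp [mul_add]
      map_smul' := fun c F => by
        funext h
        simp only [Pi.smul_apply, smul_eq_mul, RingHom.id_apply]
        ring }
  map_one' := by
    refine LinearMap.ext fun F => funext fun h => ?_
    simp
  map_mul' x y := by
    refine LinearMap.ext fun F => funext fun h => ?_
    change (x * y).left (h • l) * F ((x * y).right⁻¹ * h) =
      x.left (h • l) * (y.left ((x.right⁻¹ * h) • l) * F (y.right⁻¹ * (x.right⁻¹ * h)))
    rw [SemidirectProduct.mul_left, SemidirectProduct.mul_right, AddChar.mul_apply, act_apply,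
      mul_smul, mul_inv_rev]
    simp only [mul_assoc]

theorem rep_apply (l : W) (x : AddChar W ℂ ⋊[(act : G →* MulAut (AddChar W ℂ))] G) (F : G → ℂ)
    (h : G) : rep l x F h = x.left (h • l) * F (x.right⁻¹ * h) := rfl

theorem inj {l : W} (hl : ∀ g : G, g • l = l → g = 1) {h h₀ : G} (h1 : h • l = h₀ • l) :
    h = h₀ := by
  have h2 : (h₀⁻¹ * h) • l = l := by
    rw [mul_smul, h1, inv_smul_smul]
  have h3 := hl _ h2
  exact (inv_mul_eq_one.1 h3).symm

theorem main : S_A1 := by
  classical
  intro G W _ _ _ _ _ l hl
  cases nonempty_fintype W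
  refine ⟨act, rep l, ?_, ?_⟩
  · -- irreducibility
    have key : ∀ U : Subrepresentation (rep (G := G) l), ∀ F ∈ U.toSubmodule, F ≠ 0 → U = ⊤ := by
      intro U F hF hF0
      obtain ⟨h₀, hh₀⟩ := Function.ne_iff.1 hF0
      change F h₀ ≠ 0 at hh₀
      have e1 : ∑ ψ : AddChar W ℂ, (ψ (-(h₀ • l))) • rep (G := G) l (SemidirectProduct.inl ψ) F ∈
          U.toSubmodule :=
        Submodule.sum_mem _ fun ψ _ => Submodule.smul_mem _ _ (U.apply_mem_toSubmodule _ hF)
      have e2 : ∑ ψ : AddChar W ℂ, (ψ (-(h₀ • l))) • rep (G := G) l (SemidirectProduct.inl ψ) F =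
          ((Fintype.card W : ℂ) * F h₀) • (Pi.single h₀ 1 : G → ℂ) := by
        funext h
        rw [Finset.sum_apply]
        have e3 : ∀ ψ : AddChar W ℂ,
            ((ψ (-(h₀ • l))) • rep (G := G) l (SemidirectProduct.inl ψ) F) h =
            ψ (h • l - h₀ • l) * F h := by
          intro ψ
          rw [Pi.smul_apply, rep_apply, smul_eq_mul, SemidirectProduct.left_inl,
            SemidirectProduct.right_inl, inv_one, one_mul, ← mul_assoc, sub_eq_add_neg,
            AddChar.map_add_eq_mul]
          ring
        simp only [e3]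
        rw [← Finset.sum_mul, AddChar.sum_apply_eq_ite, Pi.smul_apply, smul_eq_mul,
          Pi.single_apply]
        by_cases h1 : h = h₀
        · subst h1
          simp
        · have h2 : h • l - h₀ • l ≠ 0 := fun h3 => h1 (inj hl (sub_eq_zero.1 h3))
          rw [if_neg h1, if_neg h2, zero_mul, mul_zero]
      rw [e2] at e1
      have hc : (Fintype.card W : ℂ) * F h₀ ≠ 0 :=
        mul_ne_zero (Nat.cast_ne_zero.2 Fintype.card_ne_zero) hh₀
      have e4 : (Pi.single h₀ 1 : G → ℂ) ∈ U.toSubmodule := by
        have := U.toSubmodule.smul_mem ((Fintype.card W : ℂ) * F h₀)⁻¹ e1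
        rwa [smul_smul, inv_mul_cancel₀ hc, one_smul] at this
      have e5 : ∀ h : G, (Pi.single h 1 : G → ℂ) ∈ U.toSubmodule := by
        intro h
        have h1 := U.apply_mem_toSubmodule (SemidirectProduct.inr (h * h₀⁻¹)) e4
        have h2 : rep (G := G) l (SemidirectProduct.inr (h * h₀⁻¹)) (Pi.single h₀ 1 : G → ℂ) =
            (Pi.single h 1 : G → ℂ) := by
          funext k
          rw [rep_apply, SemidirectProduct.left_inr, SemidirectProduct.right_inr, AddChar.one_apply,
            one_mul, Pi.single_apply, Pi.single_apply]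
          congr 1
          rw [mul_inv_rev, inv_inv, eq_iff_iff]
          constructor
          · intro h3
            have h4 : h₀ * (h⁻¹ * k) = h₀ * 1 := by
              rw [← mul_assoc, h3, mul_one]
            exact (inv_mul_eq_one.1 (mul_left_cancel h4)).symm
          · rintro rfl
            simp
        rwa [h2] at h1
      refine Subrepresentation.toSubmodule_injective ?_
      change U.toSubmodule = ⊤
      rw [Submodule.eq_top_iff']
      intro F'
      have e6 : F' = ∑ h, F' h • (Pi.single h 1 : G → ℂ) := by
        funext k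
        simp [Finset.sum_apply, Pi.single_apply]
      rw [e6]
      exact Submodule.sum_mem _ fun h _ => Submodule.smul_mem _ _ (e5 h)
    have hnt : (⊥ : Subrepresentation (rep (G := G) l)) ≠ ⊤ := by
      intro h
      have h1 : (⊥ : Submodule ℂ (G → ℂ)) = ⊤ :=
        congrArg Subrepresentation.toSubmodule h
      exact bot_ne_top h1
    have : Nontrivial (Subrepresentation (rep (G := G) l)) := ⟨⟨⊥, ⊤, hnt⟩⟩
    refine ⟨fun U => ?_⟩
    by_cases hU : ∀ F ∈ U.toSubmodule, F = 0
    · left
      refine Subrepresentation.toSubmodule_injective ?_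
      change U.toSubmodule = ⊥
      exact (Submodule.eq_bot_iff _).2 hU
    · right
      push Not at hU
      obtain ⟨F, hF, hF0⟩ := hU
      exact key U F hF hF0
  · -- the character
    intro ψ
    unfold Representation.character
    rw [LinearMap.trace_eq_matrix_trace ℂ (Pi.basisFun ℂ G), Matrix.trace]
    refine Finset.sum_congr rfl fun g _ => ?_
    rw [Matrix.diag_apply, LinearMap.toMatrix_apply, Pi.basisFun_repr, Pi.basisFun_apply,
      rep_apply, SemidirectProduct.left_inl, SemidirectProduct.right_inl, inv_one, one_mul,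
      Pi.single_eq_same, mul_one]

end Pool.Agent.R857.OC.A1
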