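import Pool.Agent.R857.OC.Stm2

/-! Project OC, piece A2: Fourier analysis on a finite abelian group. -/

set_option autoImplicit false

namespace Pool.Agent.R857.OC.A2

open Finset

theorem main : S_A2 := by
  classical
  intro G W _ _ _ _ _ l y h1 h2
  have : Fintype W := Fintype.ofFinite W
  by_contra hcon
  push Not at hcon
  -- the orthogonality relation
  have key : ∀ v : W, ∑ ψ : AddChar W ℂ, (∑ g : G, ψ (g • l)) * ψ (-v) =
      ∑ g : G, if g • l = v then (Fintype.card W : ℂ) else 0 := by
    intro v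
    simp only [sum_mul]
    rw [sum_comm]
    refine sum_congr rfl fun g _ => ?_
    have e : ∀ ψ : AddChar W ℂ, ψ (g • l) * ψ (-v) = ψ (g • l - v) := by
      intro ψ
      rw [sub_eq_add_neg, AddChar.map_add_eq_mul]
    simp only [e]
    rw [AddChar.sum_apply_eq_ite]
    simp only [sub_eq_zero]
  have h3 : ∑ ψ : AddChar W ℂ, (∑ g : G, ψ (g • l)) * ψ (-(l + 9 • y)) =
      ∑ ψ : AddChar W ℂ, (∑ g : G, ψ (g • l)) * ψ (-l) := by
    refine sum_congr rfl fun ψ _ => ?_
    by_cases h9 : ψ ^ 9 = 1
    · have e : ψ (-(l + 9 • y)) = ψ (-l) := by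
        have e1 : -(l + 9 • y) = -l + 9 • (-y) := by rw [neg_add, smul_neg]
        rw [e1, AddChar.map_add_eq_mul, AddChar.map_nsmul_eq_pow, ← AddChar.pow_apply, h9,
          AddChar.one_apply, mul_one]
      rw [e]
    · rw [hcon ψ h9, zero_mul, zero_mul]
  rw [key, key] at h3
  have h4 : ∑ g : G, (if g • l = l + 9 • y then (Fintype.card W : ℂ) else 0) = 0 :=
    sum_eq_zero fun g _ => if_neg (h2 g)
  have h5 : ∑ g : G, (if g • l = l then (Fintype.card W : ℂ) else 0) = Fintype.card W := by
    rw [sum_eq_single (1 : G)]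
    · rw [if_pos (one_smul G l)]
    · intro g _ hg
      exact if_neg fun h => hg (h1 g h)
    · intro h
      exact absurd (mem_univ _) h
  rw [h4, h5] at h3
  have h6 : (Fintype.card W : ℂ) ≠ 0 := by
    exact_mod_cast Fintype.card_ne_zero
  exact h6 h3.symm

end Pool.Agent.R857.OC.A2
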