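import Pool.Agent.R857.OC.Stm

/-! Project OC, piece B: the construction of the action from the ring data. -/

set_option autoImplicit false

namespace Pool.Agent.R857.OC.B

open Pool.Agent.R857.OC

section

variable {R : Type} [CommRing R] {I : Ideal R} {D : Type} [Group D] [Fintype D] {Q : Type}
  [AddCommGroup Q] [DistribMulAction D Q]

/-- translation action of `D` on functions -/
def phi (R D : Type) [CommRing R] [Group D] : D →* MulAut (D → Rˣ) where
  toFun δ :=
    { toFun := fun u d => u (δ⁻¹ * d)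
      invFun := fun u d => u (δ * d)
      left_inv := fun u => by ext d; simp
      right_inv := fun u => by ext d; simp
      map_mul' := fun u v => rfl }
  map_one' := by ext u d; simp
  map_mul' δ ε := by ext u d; simp [mul_assoc]

theorem phi_apply (δ : D) (u : D → Rˣ) (d : D) : phi R D δ u d = u (δ⁻¹ * d) := rfl

/-- hypotheses on `f` and `s` -/
structure Hyp (I : Ideal R) (s : D → Q) (f : R → Q) : Prop where
  hs : ∀ d e : D, s (d * e) = s d + d • s e
  hf : ∀ a ∈ I, ∀ b ∈ I, f ((1 + a) * (1 + b)) = f (1 + a) + f (1 + b)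

variable {s : D → Q} {f : R → Q}

theorem Hyp.mul (H : Hyp I s f) {u v : R} (hu : u - 1 ∈ I) (hv : v - 1 ∈ I) :
    f (u * v) = f u + f v := by
  have := H.hf (u - 1) hu (v - 1) hv
  simpa using this

theorem Hyp.one (H : Hyp I s f) : f 1 = 0 := by
  have := H.mul (u := 1) (v := 1) (by simp) (by simp)
  simpa using this

theorem Hyp.s_one (H : Hyp I s f) : s 1 = 0 := by
  have := H.hs 1 1
  simpa using this

theorem mul_mem {u v : R} (hu : u - 1 ∈ I) (hv : v - 1 ∈ I) : u * v - 1 ∈ I := by
  have : u * v - 1 = u * (v - 1) + (u - 1) := by ring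
  rw [this]
  exact I.add_mem (I.mul_mem_left _ hv) hu

theorem inv_mem {u : Rˣ} (hu : (u : R) - 1 ∈ I) : ((u⁻¹ : Rˣ) : R) - 1 ∈ I := by
  have : ((u⁻¹ : Rˣ) : R) - 1 = -(((u⁻¹ : Rˣ) : R) * ((u : R) - 1)) := by
    rw [mul_sub, Units.inv_mul]; ring
  rw [this]
  exact I.neg_mem (I.mul_mem_left _ hu)

theorem Hyp.inv (H : Hyp I s f) {u : Rˣ} (hu : (u : R) - 1 ∈ I) :
    f ((u⁻¹ : Rˣ) : R) = - f (u : R) := by
  have h1 := H.mul hu (inv_mem hu)
  rw [Units.mul_inv, H.one] at h1
  exact (neg_eq_of_add_eq_zero_right h1.symm).symm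

/-- the sum -/
def Phi (f : R → Q) (u : D → Rˣ) : Q := ∑ d : D, d • f (u d : R)

theorem Phi_phi (δ : D) (u : D → Rˣ) : Phi f (phi R D δ u) = δ • Phi f u := by
  unfold Phi
  rw [Finset.smul_sum]
  refine Fintype.sum_equiv (Equiv.mulLeft δ⁻¹) _ _ fun d => ?_
  rw [phi_apply, Equiv.coe_mulLeft, ← mul_smul, mul_inv_cancel_left]

theorem Hyp.Phi_mul (H : Hyp I s f) (u v : D → Rˣ) (hu : ∀ d, (u d : R) - 1 ∈ I)
    (hv : ∀ d, (v d : R) - 1 ∈ I) : Phi f (u * v) = Phi f u + Phi f v := by
  unfold Phi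
  rw [← Finset.sum_add_distrib]
  refine Finset.sum_congr rfl fun d _ => ?_
  rw [Pi.mul_apply, Units.val_mul, H.mul (hu d) (hv d), smul_add]

theorem Hyp.Phi_one (H : Hyp I s f) : Phi f (1 : D → Rˣ) = 0 := by
  unfold Phi
  refine Finset.sum_eq_zero fun d _ => ?_
  rw [Pi.one_apply, Units.val_one, H.one, smul_zero]

/-- the group -/
def Grp (H : Hyp I s f) : Subgroup ((D → Rˣ) ⋊[phi R D] D) where
  carrier := {x | (∀ d, (x.left d : R) - 1 ∈ I) ∧ Phi f x.left = s x.right}
  one_mem' := by
    refine ⟨fun d => ?_, ?_⟩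
    · simp
    · simp only [SemidirectProduct.one_left, SemidirectProduct.one_right]
      rw [H.Phi_one, H.s_one]
  mul_mem' := by
    rintro x y ⟨hx, hx'⟩ ⟨hy, hy'⟩
    have hy2 : ∀ d, ((phi R D x.right y.left) d : R) - 1 ∈ I := fun d => hy _
    refine ⟨fun d => ?_, ?_⟩
    · rw [SemidirectProduct.mul_left, Pi.mul_apply, Units.val_mul]
      exact mul_mem (hx d) (hy2 d)
    · rw [SemidirectProduct.mul_left, SemidirectProduct.mul_right, H.Phi_mul _ _ hx hy2, Phi_phi,
        hx', hy', H.hs]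
  inv_mem' := by
    rintro x ⟨hx, hx'⟩
    have h0 : ∀ d, ((x.left⁻¹ d : Rˣ) : R) - 1 ∈ I := fun d => inv_mem (hx d)
    have h1 : Phi f (x.left⁻¹) = - Phi f x.left := by
      have := H.Phi_mul _ _ hx h0
      rw [mul_inv_cancel, H.Phi_one] at this
      exact (neg_eq_of_add_eq_zero_right this.symm).symm
    refine ⟨fun d => ?_, ?_⟩
    · rw [SemidirectProduct.inv_left, phi_apply]
      exact h0 _
    · rw [SemidirectProduct.inv_left, SemidirectProduct.inv_right, Phi_phi, h1, hx']
      have h2 := H.hs x.right⁻¹ x.right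
      rw [inv_mul_cancel, H.s_one] at h2
      rw [smul_neg]
      exact (eq_neg_of_add_eq_zero_left h2.symm).symm

/-- the module -/
def Mdl (I : Ideal R) (D : Type) : AddSubgroup (D → R) where
  carrier := {r | ∀ d e, r d - r e ∈ I}
  zero_mem' := fun d e => by simp
  add_mem' := by
    intro r r' h h' d e
    have : (r + r') d - (r + r') e = (r d - r e) + (r' d - r' e) := by
      simp only [Pi.add_apply]; ring
    rw [this]
    exact I.add_mem (h d e) (h' d e)
  neg_mem' := by
    intro r h d e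
    have : (-r) d - (-r) e = -(r d - r e) := by simp only [Pi.neg_apply]; ring
    rw [this]
    exact I.neg_mem (h d e)

/-- the action -/
noncomputable instance act (H : Hyp I s f) : DistribMulAction (Grp H) (Mdl I D) where
  smul g w := ⟨fun d => (g.1.left d : R) * w.1 (g.1.right⁻¹ * d), fun d e => by
    have h1 := g.2.1 d
    have h2 := g.2.1 e
    have h3 := w.2 (g.1.right⁻¹ * d) (g.1.right⁻¹ * e)
    have : (g.1.left d : R) * w.1 (g.1.right⁻¹ * d) - (g.1.left e : R) * w.1 (g.1.right⁻¹ * e)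
      = ((g.1.left d : R) - 1) * w.1 (g.1.right⁻¹ * d)
        - ((g.1.left e : R) - 1) * w.1 (g.1.right⁻¹ * e)
        + (w.1 (g.1.right⁻¹ * d) - w.1 (g.1.right⁻¹ * e)) := by ring
    rw [this]
    exact I.add_mem (I.sub_mem (I.mul_mem_right _ h1) (I.mul_mem_right _ h2)) h3⟩
  one_smul w := by
    apply Subtype.ext
    funext d
    change ((1 : (D → Rˣ) ⋊[phi R D] D).left d : R) * w.1 ((1 : (D → Rˣ) ⋊[phi R D] D).right⁻¹ * d)
      = w.1 d
    simp
  mul_smul g h w := by
    apply Subtype.ext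
    funext d
    change ((g.1 * h.1).left d : R) * w.1 ((g.1 * h.1).right⁻¹ * d)
      = (g.1.left d : R) * ((h.1.left (g.1.right⁻¹ * d) : R)
        * w.1 (h.1.right⁻¹ * (g.1.right⁻¹ * d)))
    rw [SemidirectProduct.mul_left, SemidirectProduct.mul_right, Pi.mul_apply, phi_apply,
      Units.val_mul, mul_inv_rev, mul_assoc, mul_assoc]
  smul_zero g := by
    apply Subtype.ext
    funext d
    change (g.1.left d : R) * 0 = 0
    rw [mul_zero]
  smul_add g w w' := by
    apply Subtype.ext
    funext d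
    change (g.1.left d : R) * (w.1 (g.1.right⁻¹ * d) + w'.1 (g.1.right⁻¹ * d))
      = (g.1.left d : R) * w.1 (g.1.right⁻¹ * d) + (g.1.left d : R) * w'.1 (g.1.right⁻¹ * d)
    rw [mul_add]

theorem smul_apply (H : Hyp I s f) (g : Grp H) (w : Mdl I D) (d : D) :
    (g • w).1 d = (g.1.left d : R) * w.1 (g.1.right⁻¹ * d) := rfl

/-- the unit group `1 + I` -/
def UI (I : Ideal R) : Subgroup Rˣ where
  carrier := {u | (u : R) - 1 ∈ I}
  one_mem' := by simp
  mul_mem' := by
    intro u v hu hv
    change ((u * v : Rˣ) : R) - 1 ∈ I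
    rw [Units.val_mul]
    exact mul_mem hu hv
  inv_mem' := fun {u} hu => inv_mem hu

theorem card_UI (hI : ∀ a ∈ I, IsUnit (1 + a)) : Nat.card (UI I) = Nat.card I := by
  refine Nat.card_congr (Equiv.ofBijective (fun u => (⟨(u.1 : R) - 1, u.2⟩ : I)) ⟨?_, ?_⟩)
  · intro u v huv
    have : (u.1 : R) - 1 = (v.1 : R) - 1 := congrArg Subtype.val huv
    apply Subtype.ext
    apply Units.ext
    simpa using this
  · rintro ⟨a, ha⟩
    obtain ⟨u, hu⟩ := hI a ha
    refine ⟨⟨u, ?_⟩, ?_⟩
    · change (u : R) - 1 ∈ I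
      rw [hu]; simpa using ha
    · apply Subtype.ext
      change (u : R) - 1 = a
      rw [hu]; ring

/-- the homomorphism `Phi` on `(1 + I)^D` -/
noncomputable def PhiH (H : Hyp I s f) : (D → UI I) →* Multiplicative Q where
  toFun u := Multiplicative.ofAdd (Phi f fun d => (u d).1)
  map_one' := by
    have := H.Phi_one
    exact congrArg Multiplicative.ofAdd this
  map_mul' u v := by
    have := H.Phi_mul (fun d => (u d).1) (fun d => (v d).1) (fun d => (u d).2) (fun d => (v d).2)
    exact congrArg Multiplicative.ofAdd this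

theorem fiber_card [Finite R] (H : Hyp I s f) (hsurj : Function.Surjective (PhiH H))
    (q : Multiplicative Q) :
    Nat.card {u : D → UI I // PhiH H u = q} = Nat.card (PhiH H).ker := by
  obtain ⟨v, hv⟩ := hsurj q
  refine Nat.card_congr
    { toFun := fun u => ⟨v⁻¹ * u.1, by rw [MonoidHom.mem_ker, map_mul, map_inv, hv, u.2]; simp⟩
      invFun := fun k => ⟨v * k.1, by
        rw [map_mul, hv, (MonoidHom.mem_ker).1 k.2, mul_one]⟩
      left_inv := fun u => by apply Subtype.ext; simp
      right_inv := fun k => by apply Subtype.ext; simp }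

theorem card_Grp [Finite R] [Finite Q] (H : Hyp I s f) (hsurj : Function.Surjective (PhiH H)) :
    Nat.card (Grp H) = Nat.card D * Nat.card (PhiH H).ker := by
  classical
  have e : Grp H ≃ Σ δ : D, {u : D → UI I // PhiH H u = Multiplicative.ofAdd (s δ)} :=
    { toFun := fun x => ⟨x.1.right, ⟨fun d => ⟨x.1.left d, x.2.1 d⟩,
        congrArg Multiplicative.ofAdd x.2.2⟩⟩
      invFun := fun y => ⟨⟨fun d => (y.2.1 d).1, y.1⟩, fun d => (y.2.1 d).2,
        Multiplicative.ofAdd.injective y.2.2⟩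
      left_inv := fun x => by
        apply Subtype.ext
        rfl
      right_inv := fun y => by
        rcases y with ⟨δ, u, hu⟩
        rfl }
  rw [Nat.card_congr e, Nat.card_sigma]
  rw [Finset.sum_congr rfl fun δ _ => fiber_card H hsurj _]
  rw [Finset.sum_const, Finset.card_univ, smul_eq_mul, Nat.card_eq_fintype_card (α := D)]

theorem card_Mdl [Finite R] (h3 : Nat.card R = 3 * Nat.card I) :
    Nat.card (Mdl I D) = 3 * Nat.card I ^ Nat.card D := by
  classical
  have hI : 0 < Nat.card I := Nat.card_pos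
  have hq : Nat.card (R ⧸ I) = 3 := by
    have h1 : Nat.card R = Nat.card (R ⧸ I) * Nat.card I :=
      I.toAddSubgroup.card_eq_card_quotient_mul_card_addSubgroup
    rw [h3] at h1
    exact (Nat.eq_of_mul_eq_mul_right hI h1).symm
  let g : Mdl I D →+ R ⧸ I :=
    { toFun := fun r => Ideal.Quotient.mk I (r.1 1)
      map_zero' := by simp
      map_add' := fun r r' => by simp }
  have hg : Function.Surjective g := by
    intro q
    obtain ⟨a, rfl⟩ := Ideal.Quotient.mk_surjective q
    exact ⟨⟨fun _ => a, fun d e => by simp⟩, rfl⟩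
  have h1 : Nat.card (Mdl I D) = Nat.card (Mdl I D ⧸ g.ker) * Nat.card g.ker :=
    AddSubgroup.card_eq_card_quotient_mul_card_addSubgroup _
  have h2 : Nat.card (Mdl I D ⧸ g.ker) = 3 := by
    rw [Nat.card_congr (QuotientAddGroup.quotientKerEquivOfSurjective g hg).toEquiv, hq]
  have h4 : Nat.card g.ker = Nat.card (D → I) := by
    refine Nat.card_congr
      { toFun := fun r d => ⟨r.1.1 d, ?_⟩
        invFun := fun r => ⟨⟨fun d => (r d).1, fun d e => I.sub_mem (r d).2 (r e).2⟩, ?_⟩
        left_inv := fun r => rfl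
        right_inv := fun r => rfl }
    · have h5 : r.1.1 1 ∈ I := Ideal.Quotient.eq_zero_iff_mem.1 ((AddMonoidHom.mem_ker).1 r.2)
      have h6 := I.add_mem (r.1.2 d 1) h5
      simpa using h6
    · rw [AddMonoidHom.mem_ker]
      exact Ideal.Quotient.eq_zero_iff_mem.2 (r 1).2
  rw [h1, h2, h4, Nat.card_fun]

end

theorem main : S_B := by
  classical
  rintro ⟨R, _, _, I, D, _, _, Q, _, _, _, s, f, y, h3, ⟨m, hm⟩, ⟨n, hn⟩, hQ, h27, hu, hs, hinj, hf,
    hsurj, hy, hne⟩
  have H : Hyp I s f := ⟨hs, hf⟩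
  have hsj : Function.Surjective (PhiH H) := by
    intro q
    obtain ⟨u, hu1, hu2⟩ := hsurj (Multiplicative.toAdd q)
    choose v hv using fun d => hu (u d) (hu1 d)
    refine ⟨fun d => ⟨v d, ?_⟩, ?_⟩
    · change (v d : R) - 1 ∈ I
      rw [hv]
      simpa using hu1 d
    · change Multiplicative.ofAdd (∑ d, d • f (v d : R)) = q
      rw [← ofAdd_toAdd q, hu2]
      congr 1
      exact Finset.sum_congr rfl fun d _ => by rw [hv]
  have hcU : Nat.card (D → UI I) = Nat.card I ^ Nat.card D := by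
    rw [Nat.card_fun, card_UI hu]
  have hcU2 : Nat.card (D → UI I) = Nat.card Q * Nat.card (PhiH H).ker := by
    have h1 : Nat.card (D → UI I) = Nat.card ((D → UI I) ⧸ (PhiH H).ker)
        * Nat.card (PhiH H).ker := Subgroup.card_eq_card_quotient_mul_card_subgroup _
    rw [h1, Nat.card_congr (QuotientGroup.quotientKerEquivOfSurjective (PhiH H) hsj).toEquiv]
    rfl
  have hcG := card_Grp H hsj
  have hD : 0 < Nat.card D := Nat.card_pos
  have hG3 : 3 * Nat.card (Grp H) = Nat.card I ^ Nat.card D := by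
    rw [← hcU, hcU2, hQ, hcG]; ring
  have hW := card_Mdl (D := D) h3
  haveI hfs : Finite ((D → Rˣ) ⋊[phi R D] D) := Finite.of_equiv _ SemidirectProduct.equivProd.symm
  haveI hfg : Finite (Grp H) := Subtype.finite
  refine ⟨Grp H, Mdl I D, inferInstance, inferInstance, inferInstance, inferInstance, act H,
    ⟨fun _ => 1, fun d e => by simp⟩, ⟨Pi.single 1 y, fun d e => ?_⟩, ?_, ?_, ?_, ?_, ?_⟩
  · have hmem : ∀ d : D, (Pi.single (1 : D) y : D → R) d ∈ I := by
      intro d
      by_cases h : d = 1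
      · subst h; simpa using hy
      · rw [Pi.single_eq_of_ne h]; exact I.zero_mem
    exact I.sub_mem (hmem d) (hmem e)
  · have hdvd : Nat.card (Grp H) ∣ 3 ^ (m * Nat.card D) := by
      rw [pow_mul, ← hm, ← hG3]
      exact Dvd.intro_left 3 rfl
    obtain ⟨k, _, hk⟩ := (Nat.dvd_prime_pow Nat.prime_three).1 hdvd
    exact IsPGroup.of_card hk
  · rw [hW, ← hG3]; ring
  · intro w
    apply Subtype.ext
    funext d
    change 27 • w.1 d = 0
    rw [nsmul_eq_mul]
    have : ((27 : ℕ) : R) = 0 := by exact_mod_cast h27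
    rw [this, zero_mul]
  · intro g hg
    have h1 : ∀ d, g.1.left d = 1 := by
      intro d
      have h2 : (g • (⟨fun _ => 1, fun d e => by simp⟩ : Mdl I D)).1 d = 1 := by rw [hg]
      rw [smul_apply, mul_one] at h2
      exact Units.ext h2
    have h3 : g.1.left = 1 := funext h1
    have h4 : s g.1.right = s 1 := by
      rw [← g.2.2, h3, H.Phi_one, H.s_one]
    have h5 := hinj h4
    apply Subtype.ext
    exact SemidirectProduct.ext h3 h5
  · intro g hg
    have h1 : ∀ d, (g.1.left d : R) = 1 + 9 * (Pi.single (1 : D) y : D → R) d := by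
      intro d
      have h2 := congrFun (congrArg Subtype.val hg) d
      rw [smul_apply] at h2
      change (g.1.left d : R) * 1 = 1 + 9 • (Pi.single (1 : D) y : D → R) d at h2
      rw [mul_one, nsmul_eq_mul] at h2
      simpa using h2
    have h2 : Phi f g.1.left = f (1 + 9 * y) := by
      unfold Phi
      rw [Finset.sum_eq_single 1]
      · rw [h1, Pi.single_eq_same, one_smul]
      · intro d _ hd
        rw [h1, Pi.single_eq_of_ne hd, mul_zero, add_zero, H.one, smul_zero]
      · intro h; exact absurd (Finset.mem_univ _) h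
    exact hne g.1.right (by rw [← g.2.2, h2])

end Pool.Agent.R857.OC.B
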