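import Pool.Agent.R857.OC.Stm

/-!
# Piece C (helper139): the concrete ring data
-/

set_option autoImplicit false

namespace Pool.Agent.R857.OC.C

/-- `(Z/n)[t]`, `t² = -3`. -/
abbrev A (n : ℕ) : Type := QuadraticAlgebra (ZMod n) (-3) 0

theorem A_ext {n : ℕ} {x y : A n} (h1 : x.re = y.re) (h2 : x.im = y.im) : x = y :=
  QuadraticAlgebra.ext h1 h2

/-- reduction `a + b t ↦ a mod 3`. -/
def red (n : ℕ) (h : 3 ∣ n) : A n →+* ZMod 3 where
  toFun x := ZMod.castHom h (ZMod 3) x.re
  map_one' := by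
    show ZMod.castHom h (ZMod 3) (1 : ZMod n) = 1
    exact map_one _
  map_zero' := by
    show ZMod.castHom h (ZMod 3) (0 : ZMod n) = 0
    exact map_zero _
  map_add' x y := by
    rw [QuadraticAlgebra.re_add, map_add]
  map_mul' x y := by
    rw [QuadraticAlgebra.re_mul, map_add, map_mul, map_mul, map_mul]
    have e : ZMod.castHom h (ZMod 3) (-3 : ZMod n) = 0 := by
      rw [map_neg, map_ofNat]
      decide
    rw [e, zero_mul, zero_mul, add_zero]

theorem red_apply (n : ℕ) (h : 3 ∣ n) (x : A n) : red n h x = ZMod.castHom h (ZMod 3) x.re := rfl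

/-- the ideal `{a + b t : 3 ∣ a}`. -/
def I (n : ℕ) (h : 3 ∣ n) : Ideal (A n) := RingHom.ker (red n h)

instance (n : ℕ) [NeZero n] : Finite (A n) :=
  Finite.of_equiv _ (QuadraticAlgebra.equivProd (-3 : ZMod n) 0).symm

theorem card_A (n : ℕ) [NeZero n] : Nat.card (A n) = n * n := by
  rw [Nat.card_congr (QuadraticAlgebra.equivProd (-3 : ZMod n) 0), Nat.card_prod, Nat.card_zmod]

theorem card_I (n : ℕ) [NeZero n] (h : 3 ∣ n) : Nat.card (A n) = 3 * Nat.card (I n h) := by
  have h1 : Nat.card (A n ⧸ I n h) = 3 := by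
    have hs : Function.Surjective (red n h) := by
      intro z
      obtain ⟨w, hw⟩ := ZMod.castHom_surjective h z
      exact ⟨⟨w, 0⟩, hw⟩
    exact (Nat.card_congr (RingHom.quotientKerEquivOfSurjective hs).toEquiv).trans
      (Nat.card_zmod 3)
  rw [Submodule.card_eq_card_quotient_mul_card (I n h), h1, mul_comm]

theorem mem_I (n : ℕ) (h : 3 ∣ n) (x : A n) : x ∈ I n h ↔ ZMod.castHom h (ZMod 3) x.re = 0 :=
  RingHom.mem_ker

/-! ### the ring `R` -/

theorem h27 : 3 ∣ 27 := by norm_num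

theorem h9 : 3 ∣ 9 := by norm_num

theorem exists_three (r : ZMod 27) (h : ZMod.castHom h27 (ZMod 3) r = 0) : ∃ x, r = 3 * x := by
  revert r
  decide +kernel

theorem char27 : (27 : A 27) = 0 := by
  refine A_ext ?_ ?_
  · rw [QuadraticAlgebra.re_ofNat, QuadraticAlgebra.re_zero]
    decide
  · rw [QuadraticAlgebra.im_ofNat, QuadraticAlgebra.im_zero]

theorem nilp (a : A 27) (ha : a ∈ I 27 h27) : IsNilpotent a := by
  obtain ⟨x, hx⟩ := exists_three a.re ((mem_I 27 h27 a).1 ha)
  have h1 : a * a = 3 * (⟨3 * x ^ 2 - a.im ^ 2, 2 * x * a.im⟩ : A 27) := by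
    refine A_ext ?_ ?_
    · rw [QuadraticAlgebra.re_mul, QuadraticAlgebra.re_mul, QuadraticAlgebra.re_ofNat,
        QuadraticAlgebra.im_ofNat, hx]
      ring
    · rw [QuadraticAlgebra.im_mul, QuadraticAlgebra.im_mul, QuadraticAlgebra.re_ofNat,
        QuadraticAlgebra.im_ofNat, hx]
      ring
  refine ⟨6, ?_⟩
  have e : a ^ 6 = (a * a) ^ 3 := by ring
  rw [e, h1, mul_pow]
  have e2 : (3 : A 27) ^ 3 = 27 := by norm_num
  rw [e2, char27, zero_mul]

/-! ### the function `h` -/

/-- `(c - c³)/3`. -/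
def hh (c : ZMod 27) : ZMod 9 := (((c - c * c * c).val / 3 : ℕ) : ZMod 9)

theorem hh_add : ∀ c d : ZMod 27,
    hh ((c + d) * (1 + 3 * (c * d) + 9 * ((c * d) * (c * d)))) = hh c + hh d := by
  decide +kernel

theorem inv8 : ∀ x : ZMod 27, (1 - 3 * x) ^ 8 = 1 + 3 * x + 9 * (x * x) := by
  decide +kernel

theorem pow9 : ∀ a : ZMod 27, ZMod.castHom h27 (ZMod 3) a = 1 → a ^ 9 = 1 := by
  decide +kernel

/-- the quotient `b / a`. -/
def quo (u : A 27) : ZMod 27 := u.im * u.re ^ 8

theorem quo_mul (u v : A 27) (hu : ZMod.castHom h27 (ZMod 3) u.re = 1)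
    (hv : ZMod.castHom h27 (ZMod 3) v.re = 1) :
    quo (u * v) = (quo u + quo v) *
      (1 + 3 * (quo u * quo v) + 9 * ((quo u * quo v) * (quo u * quo v))) := by
  have hu9 := pow9 _ hu
  have hv9 := pow9 _ hv
  have e1 : u.im = quo u * u.re := by
    unfold quo
    have : u.im * u.re ^ 8 * u.re = u.im * u.re ^ 9 := by ring
    rw [this, hu9, mul_one]
  have e2 : v.im = quo v * v.re := by
    unfold quo
    have : v.im * v.re ^ 8 * v.re = v.im * v.re ^ 9 := by ring
    rw [this, hv9, mul_one]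
  have e3 : (u * v).re = u.re * v.re * (1 - 3 * (quo u * quo v)) := by
    rw [QuadraticAlgebra.re_mul]
    nth_rewrite 1 [e1]
    nth_rewrite 1 [e2]
    ring
  have e4 : (u * v).im = u.re * v.re * (quo u + quo v) := by
    rw [QuadraticAlgebra.im_mul]
    nth_rewrite 1 [e2]
    nth_rewrite 1 [e1]
    ring
  have e5 : quo (u * v) = (u * v).im * (u * v).re ^ 8 := rfl
  rw [e5, e3, e4, mul_pow, inv8]
  have e6 : u.re * v.re * (quo u + quo v) *
      ((u.re * v.re) ^ 8 * (1 + 3 * (quo u * quo v) + 9 * (quo u * quo v * (quo u * quo v)))) =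
      (u.re ^ 9 * v.re ^ 9) * ((quo u + quo v) *
        (1 + 3 * (quo u * quo v) + 9 * (quo u * quo v * (quo u * quo v)))) := by ring
  rw [e6, hu9, hv9, one_mul, one_mul]

/-! ### the group `D` -/

/-- the group of nine elements. -/
abbrev D : Type := Multiplicative (ZMod 3 × ZMod 3)

def dre (p : ZMod 3 × ZMod 3) : ZMod 9 :=
  (4 : ZMod 9) ^ p.1.val * (if p.2 = 2 then 7 else 1)

def dim (p : ZMod 3 × ZMod 3) : ZMod 9 :=
  (4 : ZMod 9) ^ p.1.val * (if p.2 = 0 then 0 else if p.2 = 1 then 1 else 2)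

theorem d_re : ∀ p q : ZMod 3 × ZMod 3,
    dre (p + q) = dre p * dre q + (-3) * dim p * dim q := by decide +kernel

theorem d_im : ∀ p q : ZMod 3 × ZMod 3,
    dim (p + q) = dre p * dim q + dim p * dre q + 0 * dim p * dim q := by decide +kernel

theorem d_inj : ∀ p q : ZMod 3 × ZMod 3, dre p = dre q → dim p = dim q → p = q := by
  decide +kernel

theorem d_red : ∀ p : ZMod 3 × ZMod 3, ZMod.castHom h9 (ZMod 3) (dre p - 1) = 0 := by
  decide +kernel

theorem d_three : ∀ p : ZMod 3 × ZMod 3, dim p ≠ 3 := by decide +kernel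

/-- the embedding of `D`. -/
def psi : D →* A 9 where
  toFun d := ⟨dre d.toAdd, dim d.toAdd⟩
  map_one' := by
    refine A_ext ?_ ?_
    · show dre 0 = 1
      decide +kernel
    · show dim 0 = 0
      decide +kernel
  map_mul' x y := by
    refine A_ext ?_ ?_
    · rw [QuadraticAlgebra.re_mul]
      exact d_re _ _
    · rw [QuadraticAlgebra.im_mul]
      exact d_im _ _

/-- the module `Q`. -/
abbrev Q : Type := I 9 h9

instance actD : DistribMulAction D Q := DistribMulAction.compHom Q psi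

theorem smul_def (d : D) (q : Q) : ((d • q : Q) : A 9) = psi d * (q : A 9) := rfl

/-- `s(d) = d - 1`. -/
def s (d : D) : Q := ⟨psi d - 1, by
  rw [mem_I, QuadraticAlgebra.re_sub]
  exact d_red _⟩

/-- `k t`. -/
def kt (k : ZMod 9) : Q := ⟨⟨0, k⟩, by
  rw [mem_I]
  exact map_zero _⟩

theorem kt_add (k l : ZMod 9) : kt (k + l) = kt k + kt l := by
  apply Subtype.ext
  refine A_ext ?_ ?_
  · show (0 : ZMod 9) = 0 + 0
    rw [add_zero]
  · rfl

theorem kt_zero : kt 0 = 0 := by
  apply Subtype.ext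
  exact A_ext rfl rfl

/-- `f`. -/
def f (u : A 27) : Q := kt (hh (quo u))

theorem red_one_add (a : A 27) (ha : a ∈ I 27 h27) :
    ZMod.castHom h27 (ZMod 3) (1 + a).re = 1 := by
  have h1 : red 27 h27 (1 + a) = 1 := by
    rw [map_add, map_one, RingHom.mem_ker.1 ha, add_zero]
  exact h1

theorem f_surj (k : ZMod 9) : ∃ a ∈ I 27 h27, f (1 + a) = kt k := by
  refine ⟨⟨0, 3 * (k.val : ZMod 27)⟩, ?_, ?_⟩
  · rw [mem_I]
    exact map_zero _
  · have h1 : ∀ k : ZMod 9, hh (3 * (k.val : ZMod 27)) = k := by decide +kernel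
    have h2 : quo (1 + (⟨0, 3 * (k.val : ZMod 27)⟩ : A 27)) = 3 * (k.val : ZMod 27) := by
      unfold quo
      rw [QuadraticAlgebra.re_add, QuadraticAlgebra.im_add, QuadraticAlgebra.re_one,
        QuadraticAlgebra.im_one, add_zero, one_pow, mul_one, zero_add]
    unfold f
    rw [h2, h1]

theorem f_one : f (1 + 0) = 0 := by
  have h1 : quo (1 + 0 : A 27) = 0 := by
    unfold quo
    rw [add_zero, QuadraticAlgebra.im_one, zero_mul]
  have h2 : hh 0 = 0 := by decide +kernel
  unfold f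
  rw [h1, h2, kt_zero]

theorem exists_z : ∀ r : ZMod 9, ZMod.castHom h9 (ZMod 3) r = 0 → ∃ z : ZMod 9, r = 3 * z := by
  decide +kernel

def g0 : D := Multiplicative.ofAdd (0, 1)

theorem psi_g0 : psi g0 = ⟨1, 1⟩ := by
  refine A_ext ?_ ?_
  · show dre (0, 1) = 1
    decide +kernel
  · show dim (0, 1) = 1
    decide +kernel

theorem g0_ne : (1 : D) ≠ g0 := by
  intro h
  have h1 := congrArg (fun d => (psi d).im) h
  simp only [psi_g0, map_one] at h1
  rw [QuadraticAlgebra.im_one] at h1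
  exact absurd h1 (by decide)

theorem surj (q : Q) : ∃ u : D → A 27, (∀ d, u d ∈ I 27 h27) ∧ q = ∑ d, d • f (1 + u d) := by
  classical
  obtain ⟨z, hz⟩ := exists_z (q : A 9).re ((mem_I 9 h9 _).1 q.2)
  obtain ⟨a, haI, ha⟩ := f_surj ((q : A 9).im + z)
  obtain ⟨b, hbI, hb⟩ := f_surj (-z)
  refine ⟨fun d => if d = 1 then a else if d = g0 then b else 0, fun d => ?_, ?_⟩
  · simp only
    split_ifs
    · exact haI
    · exact hbI
    · exact (I 27 h27).zero_mem
  · have h1 : ∀ d : D, d • f (1 + (if d = 1 then a else if d = g0 then b else 0)) =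
        (if d = 1 then kt ((q : A 9).im + z) else 0) + (if d = g0 then g0 • kt (-z) else 0) := by
      intro d
      by_cases hd : d = 1
      · rw [if_pos hd, if_pos hd, hd, if_neg g0_ne, ha, one_smul, add_zero]
      · rw [if_neg hd, if_neg hd]
        by_cases hd2 : d = g0
        · rw [if_pos hd2, if_pos hd2, hd2, hb, zero_add]
        · rw [if_neg hd2, if_neg hd2, f_one, smul_zero, add_zero]
    simp_rw [h1]
    rw [Finset.sum_add_distrib, Finset.sum_ite_eq' Finset.univ (1 : D),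
      Finset.sum_ite_eq' Finset.univ g0, if_pos (Finset.mem_univ _), if_pos (Finset.mem_univ _)]
    apply Subtype.ext
    rw [Submodule.coe_add, smul_def, psi_g0]
    refine A_ext ?_ ?_
    · rw [QuadraticAlgebra.re_add, QuadraticAlgebra.re_mul, hz]
      show 3 * z = 0 + (1 * 0 + (-3) * 1 * (-z))
      ring
    · rw [QuadraticAlgebra.im_add, QuadraticAlgebra.im_mul]
      show (q : A 9).im = ((q : A 9).im + z) + (1 * (-z) + 1 * 0 + 0 * 1 * (-z))
      ring

theorem main : S_C := by
  refine ⟨A 27, inferInstance, inferInstance, I 27 h27, D, inferInstance, inferInstance, Q,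
    inferInstance, inferInstance, actD, s, f, ⟨0, 1⟩, card_I 27 h27, ⟨5, ?_⟩, ⟨2, ?_⟩, ?_, char27,
    fun a ha => (nilp a ha).isUnit_one_add, ?_, ?_, ?_, surj, ?_, ?_⟩
  · have h1 := card_I 27 h27
    rw [card_A] at h1
    omega
  · rw [Nat.card_eq_fintype_card, Fintype.card_multiplicative, Fintype.card_prod, ZMod.card]
    norm_num
  · have h1 := card_I 9 h9
    rw [card_A] at h1
    have h2 : Nat.card D = 9 := by
      rw [Nat.card_eq_fintype_card, Fintype.card_multiplicative, Fintype.card_prod, ZMod.card]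
    have h3 : Nat.card Q = Nat.card (I 9 h9) := rfl
    omega
  · intro d e
    apply Subtype.ext
    show psi (d * e) - 1 = (psi d - 1) + psi d * (psi e - 1)
    rw [map_mul]
    ring
  · intro d e h
    have h1 : psi d - 1 = psi e - 1 := congrArg Subtype.val h
    have h2 : psi d = psi e := sub_left_injective h1
    exact Multiplicative.toAdd.injective
      (d_inj _ _ (congrArg QuadraticAlgebra.re h2) (congrArg QuadraticAlgebra.im h2))
  · intro a ha b hb
    unfold f
    rw [quo_mul _ _ (red_one_add a ha) (red_one_add b hb), hh_add, kt_add]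
  · rw [mem_I]
    exact map_zero _
  · intro d h
    have h1 : psi d - 1 = ((f (1 + 9 * (⟨0, 1⟩ : A 27)) : Q) : A 9) := congrArg Subtype.val h
    have h2 : quo (1 + 9 * (⟨0, 1⟩ : A 27)) = 9 := by
      unfold quo
      have e1 : (1 + 9 * (⟨0, 1⟩ : A 27)).re = 1 := by
        rw [QuadraticAlgebra.re_add, QuadraticAlgebra.re_mul, QuadraticAlgebra.re_one,
          QuadraticAlgebra.re_ofNat, QuadraticAlgebra.im_ofNat]
        ring
      have e2 : (1 + 9 * (⟨0, 1⟩ : A 27)).im = 9 := by
        rw [QuadraticAlgebra.im_add, QuadraticAlgebra.im_mul, QuadraticAlgebra.im_one,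
          QuadraticAlgebra.re_ofNat, QuadraticAlgebra.im_ofNat]
        ring
      rw [e1, e2, one_pow, mul_one]
    have h3 : hh 9 = 3 := by decide +kernel
    unfold f at h1
    rw [h2, h3] at h1
    have h4 := congrArg QuadraticAlgebra.im h1
    rw [QuadraticAlgebra.im_sub, QuadraticAlgebra.im_one, sub_zero] at h4
    exact d_three _ h4

end Pool.Agent.R857.OC.C
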