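import Mathlib

/-! Statements of the project OC: MP_6bdd40_al (Q1 is false, `p = 3`). -/

set_option autoImplicit false

namespace Pool.Agent.R857.OC

/-- The negation of Q1 for `p = 3`. -/
def Target : Prop :=
  ∃ (P : Type) (_ : Group P) (_ : Finite P) (V : Type) (_ : AddCommGroup V) (_ : Module ℂ V)
    (_ : FiniteDimensional ℂ V) (ρ : Representation ℂ P V) (x : P),
    IsPGroup 3 P ∧ ρ.IsIrreducible ∧ ρ.character x ≠ 0 ∧
    Module.finrank ℂ V ^ 2 ∣ Nat.card P ∧
    ¬ orderOf x ∣ Nat.card P / Module.finrank ℂ V ^ 2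

/-- A finite `3`-group `G` acting on a finite abelian group `W` of exponent `27`, `|W| = 9 |G|`,
with a point `l` with trivial stabiliser whose orbit does not contain `l + 9 y`. -/
def ActionData : Prop :=
  ∃ (G W : Type) (_ : Group G) (_ : Finite G) (_ : AddCommGroup W) (_ : Finite W)
    (_ : DistribMulAction G W) (l y : W),
    IsPGroup 3 G ∧ Nat.card W = 9 * Nat.card G ∧ (∀ w : W, 27 • w = 0) ∧
    (∀ g : G, g • l = l → g = 1) ∧ (∀ g : G, g • l ≠ l + 9 • y)

/-- Ring data. -/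
def RingData : Prop :=
  ∃ (R : Type) (_ : CommRing R) (_ : Finite R) (I : Ideal R) (D : Type) (_ : Group D)
    (_ : Fintype D) (Q : Type) (_ : AddCommGroup Q) (_ : Finite Q) (_ : DistribMulAction D Q)
    (s : D → Q) (f : R → Q) (y : R),
    Nat.card R = 3 * Nat.card I ∧ (∃ n, Nat.card I = 3 ^ n) ∧ (∃ n, Nat.card D = 3 ^ n) ∧
    Nat.card Q = 3 * Nat.card D ∧ (27 : R) = 0 ∧ (∀ a ∈ I, IsUnit (1 + a)) ∧
    (∀ d e : D, s (d * e) = s d + d • s e) ∧ Function.Injective s ∧
    (∀ a ∈ I, ∀ b ∈ I, f ((1 + a) * (1 + b)) = f (1 + a) + f (1 + b)) ∧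
    (∀ q : Q, ∃ u : D → R, (∀ d, u d ∈ I) ∧ q = ∑ d, d • f (1 + u d)) ∧
    y ∈ I ∧ (∀ d, s d ≠ f (1 + 9 * y))

/-- piece A -/
def S_A : Prop := ActionData → Target

/-- piece B (general construction) -/
def S_B : Prop := RingData → ActionData

/-- piece C (the concrete ring) -/
def S_C : Prop := RingData

end Pool.Agent.R857.OC
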