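import Pool.Agent.R857.OC.Stm

/-! More statements of the project OC. -/

set_option autoImplicit false

namespace Pool.Agent.R857.OC

/-- piece A1: the induced representation of `dual(W) ⋊ G` -/
def S_A1 : Prop :=
  ∀ (G W : Type) [Group G] [Fintype G] [AddCommGroup W] [Finite W] [DistribMulAction G W] (l : W),
    (∀ g : G, g • l = l → g = 1) →
    ∃ (φ : G →* MulAut (AddChar W ℂ)) (ρ : Representation ℂ (AddChar W ℂ ⋊[φ] G) (G → ℂ)),
      ρ.IsIrreducible ∧
      ∀ ψ : AddChar W ℂ, ρ.character (SemidirectProduct.inl ψ) = ∑ g : G, ψ (g • l)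

/-- piece A2: Fourier analysis -/
def S_A2 : Prop :=
  ∀ (G W : Type) [Group G] [Fintype G] [AddCommGroup W] [Finite W] [DistribMulAction G W]
    (l y : W),
    (∀ g : G, g • l = l → g = 1) → (∀ g : G, g • l ≠ l + 9 • y) →
    ∃ ψ : AddChar W ℂ, ψ ^ 9 ≠ 1 ∧ ∑ g : G, ψ (g • l) ≠ 0

end Pool.Agent.R857.OC
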